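import Pool.Agent.V11219.MinOver
import Pool.Agent.V11219.BsyDefs
import Pool.Agent.V11219.BstDefs

/-!
# Simultaneous degenerations relative to other degenerating varieties: definitions

The vocabulary (`GVar`, `GaloisVar`, `SmallVar`, `semistable`, `LargerRank`, `ClosedProd`,
`nodalTower`, `tower`, `LefschetzA`, `LefschetzB`, `HodgeType`, `HomEqNum`) is that of the starting
files.
-/

open CategoryTheory AlgebraicGeometry

universe u

namespace Run7.h756.CR

/-- No nonzero element `c` of `A` is killed by all the maps `c ↦ p (γ * f c)`, `γ` in one of the sets
`U j`. -/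
def Separates {K A B C : Type} [Field K] [Ring A] [Algebra K A] [Ring B] [Algebra K B] [Ring C]
    [Algebra K C] (f : A →ₐ[K] C) (p : C →ₗ[K] B) (U : ℕ → Set C) : Prop :=
  ∀ c, (∀ j, ∀ γ ∈ U j, p (γ * f c) = 0) → c = 0

/-- The number `n` is odd and the space `T` is contained in `gr n`. -/
def OddIn {K A : Type} [Field K] [Ring A] [Algebra K A] (T : Submodule K A)
    (gr : ℕ → Submodule K A) (n : ℕ) : Prop := Odd n ∧ T ≤ gr n

open Pool.Agent.TH125.Gal Pool.Agent.V11219.Min Pool.Agent.V11219.Bst

open Pool.Agent.H914 Pool.Agent.H914.VarClass Pool.Agent.H914.VarClass.Obj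
  Pool.Agent.H914.WeilCohomology Pool.Agent.H281R3.HT

variable {k : Type u} [Field k] {𝒱 : VarClass k} {ops : CycleOps 𝒱}

/-- The dimension of `A` is odd, and its transcendental cohomology (the orthogonal complement of the
algebraic classes) is in the middle degree. -/
def OddMiddle (W : WeilCohomology.{u, 0} ops) (A : 𝒱.Obj) : Prop :=
  OddIn (transcendental W A) (W.gr A) A.dim

/-- No nonzero class on `A` is killed by all the algebraic correspondences from `A` to `T`, that is,
by the maps which are induced by the classes of cycles on `A × T`: the cohomology of `A` is embedded in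
a sum of copies (and Tate twists) of the cohomology of `T` by correspondences. -/
def SeparatedBy (W : WeilCohomology.{u, 0} ops) (A T : 𝒱.Obj) : Prop :=
  Separates (W.map (fst A T)) (W.push (snd A T)) (algClasses W (A.prod T))

variable {W : WeilCohomology.{u, 0} ops} {Γ : Type} [Group Γ] {ι β : Type}

/-- The elements `g` of `Γ` with `χ g = 1` which act trivially on the cohomology of `Z`, and with
`(g - 1) ^ 2 = 0` on the transcendental cohomology of all `X i` and of all `Y b`. -/
def unipotent (χ : CharOf W Γ) (X : ι → GVar W Γ) (Y : β → GVar W Γ) (Z : GVar W Γ) : Set Γ :=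
  semistable χ X Z ∩ semistable χ Y Z

/-- The group `Γ` acts on the cohomology of the members of the class `G` like a Galois group, and `G`
is closed under products. The varieties `Z`, `X i` and `Y b` are members of `G`.

The odd-dimensional varieties `X i` and the divisors `D i` satisfy the hard Lefschetz theorem and the
standard conjectures of Lefschetz and of Hodge type; the transcendental cohomology of `X i` is in the
middle degree and irreducible under all subgroups of finite index, no two of them are isomorphic
up to scalars, and for every `i` the set `unipotent` satisfies `SmallDefects` on it.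

The varieties `Y b` have odd dimension, numerical and homological equivalence coincide for `Y b`, and
its transcendental cohomology is in the middle degree. It can be reducible, the `Y b` can be
isomorphic to each other or have isomorphic factors, and there is no condition on defects.

For every `i` some element `g` of `unipotent` has a rank (of `g - 1` on the transcendental
cohomology) on `X i` which is larger than the sum of the ranks on the `Y b`. -/
structure RelSystem [Fintype β] (χ : CharOf W Γ) (G : Set (GVar W Γ)) (X : ι → GVar W Γ)
    (D : ∀ i, (X i).X.Cycles) (Y : β → GVar W Γ) (Z : GVar W Γ) : Prop where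
  galois : ∀ A ∈ G, GaloisVar χ A
  prod : ClosedProd G
  mem : ∀ i, X i ∈ G
  mem_aux : ∀ b, Y b ∈ G
  mem_base : Z ∈ G
  middle : ∀ i, OddMiddle W (X i).X
  polarization : ∀ i, IsPolarization W (X i).X (D i)
  irreducible : ∀ i, IrredAct (X i).act (transcendental W (X i).X)
  distinct : ∀ i j, i ≠ j → ¬ IsoUpToScalars (X i) (X j)
  small : ∀ i, SmallVar (X i) (unipotent χ X Y Z)
  middle_aux : ∀ b, OddMiddle W (Y b).X
  homEqNum_aux : ∀ b, HomEqNum W (Y b).X
  larger : ∀ i, LargerRank (X i) Y (unipotent χ X Y Z)

/-- Conjecture A (the Lefschetz isomorphisms on algebraic classes) holds for all divisors on `A` with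
hard Lefschetz. -/
def AllA (W : WeilCohomology.{u, 0} ops) (A : 𝒱.Obj) : Prop :=
  ∀ C : A.Cycles, A.IsCyc 1 C → HardLefschetz W A C → LefschetzA W A C

/-- Conjecture B (the operator `Λ` is induced by a cycle) holds for all divisors on `A` with hard
Lefschetz. -/
def AllB (W : WeilCohomology.{u, 0} ops) (A : 𝒱.Obj) : Prop :=
  ∀ C : A.Cycles, A.IsCyc 1 C → HardLefschetz W A C → LefschetzB W A C

/-- The conclusions for the polarized varieties `B` and `T`: (1) homological and numerical equivalence
coincide for `T` if and only if they coincide for `B`; (2) if they coincide for `B` then they coincide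
for `V × V` and the Lefschetz standard conjecture B holds for `V`, for all `V` for which the cohomology
of `V × V` is embedded by correspondences in that of `T`; (3) conjecture A for all divisors holds for
`T` if and only if it holds for `B`; (4) if `B` satisfies the hard Lefschetz theorem and the
conjectures of Lefschetz and of Hodge type then `T` satisfies the conjecture of Hodge type. -/
def Transfer (W : WeilCohomology.{u, 0} ops) (B T : Polarized 𝒱) : Prop :=
  (HomEqNum W T.X ↔ HomEqNum W B.X) ∧
  (HomEqNum W B.X → ∀ V : 𝒱.Obj, SeparatedBy W (V.prod V) T.X →
    HomEqNum W (V.prod V) ∧ AllB W V) ∧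
  (AllA W T.X ↔ AllA W B.X) ∧
  (IsPolarization W B.X B.D → HodgeType W T.X T.D)

end Run7.h756.CR
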