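import Mathlib
import Pool.Agent.V11219.SstOver
import Pool.Agent.V11219.BsyMain
import Pool.Agent.Run7.h756.CR.Defs

/-!
# Simultaneous degenerations relative to other degenerating varieties: the Lie algebra
-/

open CategoryTheory AlgebraicGeometry Finset Function

set_option linter.unusedSectionVars false
set_option linter.unusedVariables false

namespace Run7.h756.CR

universe u

open Pool.Agent.V11219
open Pool.Agent.TH125.Gal Pool.Agent.TH118.SG Pool.Agent.V11219.IsoF Pool.Agent.V11219.Loc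
  Pool.Agent.V11219.Quad Pool.Agent.V11219.Sst

open Pool.Agent.H914 Pool.Agent.H914.VarClass Pool.Agent.H914.VarClass.Obj
  Pool.Agent.H914.WeilCohomology Pool.Agent.H281R3.HT Pool.Agent.W552 Pool.Agent.H447

section tw

variable {K V Γ : Type} [Field K] [AddCommGroup V] [Module K V] [Group Γ]

/-- The twist of a representation by a character. -/
noncomputable def twR (c : Γ →* Kˣ) (ρ : Representation K Γ V) : Representation K Γ V where
  toFun g := (c g : K) • ρ g
  map_one' := by simp
  map_mul' g g' := by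
    rw [map_mul, map_mul, Units.val_mul, smul_mul_smul_comm]

theorem twR_apply (c : Γ →* Kˣ) (ρ : Representation K Γ V) (g : Γ) (x : V) :
    twR c ρ g x = (c g : K) • ρ g x := rfl

theorem twR_of_one {c : Γ →* Kˣ} (ρ : Representation K Γ V) {g : Γ} (h : c g = 1) :
    twR c ρ g = ρ g := by
  apply LinearMap.ext
  intro x
  rw [twR_apply, h, Units.val_one, one_smul]

theorem symp_tw {χ : Γ →* K} {ρ : Representation K Γ V} {B : V →ₗ[K] V →ₗ[K] K}
    (h : Gk.IsSymplectic χ ρ B) (c : Γ →* Kˣ) {χ' : Γ →* K} (h' : ∀ g, χ' g = (c g : K) ^ 2 * χ g) :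
    Gk.IsSymplectic χ' (twR c ρ) B where
  alt := h.alt
  nondeg := h.nondeg
  act := fun g v w => by
    rw [twR_apply, twR_apply, map_smul, map_smul, LinearMap.smul_apply, h.act, h', smul_eq_mul,
      smul_eq_mul]
    ring

end tw

variable {k : Type u} [Field k] {𝒱 : VarClass k} {ops : CycleOps 𝒱}
  {W : WeilCohomology.{u, 0} ops} {Γ : Type} [Group Γ] {χ : Γ →* W.Kˣ}
  {ι β : Type} {X : ι → GVar W Γ} {Y : β → GVar W Γ} {Z : GVar W Γ}

/-- The conditions which are used here. -/
structure Rel [Fintype β] (χ : Γ →* W.Kˣ) (X : ι → GVar W Γ) (Y : β → GVar W Γ)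
    (Z : GVar W Γ) : Prop where
  good : ∀ i, GoodVar (X i)
  good' : ∀ b, GoodVar (Y b)
  galois : ∀ i, IsGaloisVar χ (X i)
  galois' : ∀ b, IsGaloisVar χ (Y b)
  irreducible : ∀ i, IrredAct (X i).act (transcendental W (X i).X)
  distinct : ∀ i j, i ≠ j → ¬ IsoUpToScalars (X i) (X j)
  small : ∀ i, SmallVar (X i) (semistable χ X Z ∩ semistable χ Y Z)
  larger : ∀ i, LargerRank (X i) Y (semistable χ X Z ∩ semistable χ Y Z)

variable [Fintype ι] [DecidableEq ι] [Fintype β] [DecidableEq β]

theorem Rel.gal (h : Rel χ X Y Z) (i : ι) :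
    IsGalois W χ (X i).X (X i).act := isGalois (h.galois i)

theorem Rel.gal' (h : Rel χ X Y Z) (b : β) :
    IsGalois W χ (Y b).X (Y b).act := isGalois (h.galois' b)

theorem Rel.galS (h : Rel χ X Y Z) :
    ∀ j : β ⊕ ι, IsGalois W χ (Sum.elim Y X j).X (Sum.elim Y X j).act
  | Sum.inl b => h.gal' b
  | Sum.inr i => h.gal i

/-- A common weight. -/
def wt (Y : β → GVar W Γ) : ℕ := 2 * (∑ b, (Y b).X.dim) + 1

/-- The twists. -/
def tws (Y : β → GVar W Γ) (b : β) : ℕ := (wt Y - (Y b).X.dim) / 2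

theorem tws_eq (h : Rel χ X Y Z) (b : β) : (Y b).X.dim + 2 * tws Y b = wt Y := by
  have h1 : (Y b).X.dim ≤ ∑ b, (Y b).X.dim :=
    Finset.single_le_sum (f := fun b => (Y b).X.dim) (fun _ _ => Nat.zero_le _) (Finset.mem_univ b)
  obtain ⟨m, hm⟩ := (h.good' b).1
  unfold tws wt
  omega

/-- The twisted representations. -/
noncomputable def auxR (h : Rel χ X Y Z) (b : β) :
    Representation W.K Γ (transcendental W (Y b).X) := twR (χ ^ tws Y b) (rhoT (h.gal' b))

theorem auxR_of_one (h : Rel χ X Y Z) (b : β) {g : Γ} (hg : χ g = 1) :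
    auxR h b g = rhoT (h.gal' b) g := by
  refine twR_of_one _ ?_
  rw [MonoidHom.pow_apply, hg, one_pow]

/-- The family of representations. -/
theorem Rel.family [IsAlgClosed W.K] (h : Rel χ X Y Z)
    {lam : Γ →* W.Kˣ} (hlam : ∀ g, χ g = 1 → lam g = 1) :
    Gk.SemistableFamily (fun i => mult χ (X i).X.dim) (fun i => rhoT (h.gal i))
      (fun i => rform W (X i).X (transcendental W (X i).X)) (mult χ (wt Y))
      (pR (auxR h)) (pC fun b => rform W (Y b).X (transcendental W (Y b).X))
      (twist lam Z.act) := by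
  have hN : semistable χ X Z ∩ semistable χ Y Z ⊆ Gk.quadratic (fun i => mult χ (X i).X.dim)
      (fun i => rhoT (h.gal i)) (mult χ (wt Y)) (pR (auxR h))
      (twist lam Z.act) := by
    rintro g ⟨⟨h1, h2, h3⟩, -, -, h4⟩
    have h1 : χ g = 1 := h1
    refine ⟨?_, fun i => ⟨?_, ?_⟩, ?_, ?_⟩
    · apply LinearMap.ext
      intro z
      have h4 : Z.act g = 1 := trivAct.1 h2
      rw [twist_apply, hlam g h1, h4]
      simp
    · rw [mult_apply, h1, Units.val_one, one_pow]
    · exact (quadAct_iff (P := ⟨(X i).X, 0⟩) (h.gal i)).1 (h3 i)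
    · rw [mult_apply, h1, Units.val_one, one_pow]
    · refine sq_sum fun b => ?_
      rw [auxR_of_one h b h1]
      exact (quadAct_iff (P := ⟨(Y b).X, 0⟩) (h.gal' b)).1 (h4 b)
  refine ⟨fun i => symp_var (h.good i) (h.gal i) rfl,
    symp_sum fun b => symp_tw (symp_var (h.good' b) (h.gal' b) rfl) _ fun g => ?_,
    fun i => SI_rhoT (P := ⟨(X i).X, 0⟩) (h.gal i) (h.irreducible i),
    fun i j hij hiso => ?_, fun i => small_conv (h.gal i) hN (h.small i), fun i => ?_⟩
  · rw [mult_apply, mult_apply, MonoidHom.pow_apply, Units.val_pow_eq_pow_val, ← pow_mul, ← pow_add,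
      ← tws_eq h b]
    congr 1
    ring
  · obtain ⟨T, hT⟩ := hiso
    refine h.distinct i j hij ⟨T, fun g => ?_⟩
    obtain ⟨c, hc⟩ := hT g
    refine ⟨c, fun x y hy => ?_⟩
    have h1 : y = rhoT (h.gal i) g x := Subtype.ext hy
    rw [h1, hc]
    rfl
  · obtain ⟨g, hg, hlt⟩ := h.larger i
    have hχ : χ g = 1 := hg.1.1
    refine ⟨g, hN hg, lt_of_le_of_lt (rank_sum _ g) ?_⟩
    rw [rankOn_eq (h.gal i)] at hlt
    refine lt_of_eq_of_lt (Finset.sum_congr rfl fun b _ => ?_) hlt
    rw [auxR_of_one h b hχ]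
    exact (rankOn_eq (h.gal' b) g).symm

/-- The characters of the twists. -/
def chs (χ : Γ →* W.Kˣ) (Y : β → GVar W Γ) : β ⊕ ι → (Γ →* W.Kˣ)
  | Sum.inl b => χ ^ tws Y b
  | Sum.inr _ => 1

/-- The twisted action on the tuples. -/
noncomputable def twAct (h : Rel χ X Y Z) (g : Γ) (x : ∀ j : β ⊕ ι, transcendental W (Sum.elim Y X j).X) :
    ∀ j : β ⊕ ι, transcendental W (Sum.elim Y X j).X :=
  fun j => (chs (ι := ι) χ Y j g : W.K) • rhoT (h.galS j) g (x j)

/-- **The base, for the twisted action.** -/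
theorem Rel.base_tw [IsAlgClosed W.K] (h : Rel χ X Y Z) (i : ι) {S : Type} [Fintype S]
    [DecidableEq S] {lam : Γ →* W.Kˣ} (hlam : ∀ g, χ g = 1 → lam g = 1) {Δ : Subgroup Γ}
    (hΔ : Δ.FiniteIndex)
    (f : MultilinearMap W.K (fun _ : S => ∀ j : β ⊕ ι, transcendental W (Sum.elim Y X j).X) (W.H Z.X))
    (hf : ∀ g ∈ Δ, ∀ x : S → ∀ j : β ⊕ ι, transcendental W (Sum.elim Y X j).X,
      f (fun s => twAct h g (x s)) = (lam g : W.K) • Z.act g (f x))
    (u v : transcendental W (X i).X) (z : S → ∀ j : β ⊕ ι, transcendental W (Sum.elim Y X j).X) :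
    ∑ s, f (update z s (Pi.single (Sum.inr i) (Pool.Agent.H204R3.SP.SS
      (rform W (X i).X (transcendental W (X i).X)) u v (z s (Sum.inr i))))) = 0 := by
  have h1 := ((Gk.bigFam (S := S) (h.family hlam)).single_mem i u v).2.2.2
    (f.compLinearMap fun _ => joinL X Y) ⟨Δ, hΔ, fun g hg x => by
      have h2 := hf g hg fun s => joinL X Y (x s)
      rw [MultilinearMap.compLinearMap_apply, MultilinearMap.compLinearMap_apply, twist_apply]
      refine Eq.trans (congrArg f ?_) h2
      funext s j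
      rcases j with b | i
      · rfl
      · change _ = ((1 : Γ →* W.Kˣ) g : W.K) • rhoT (h.gal i) g _
        rw [MonoidHom.one_apply, Units.val_one, one_smul]
        rfl⟩
  have h3 := h1 fun s => ((fun i => z s (Sum.inr i)), fun b => z s (Sum.inl b))
  refine Eq.trans (Finset.sum_congr rfl fun s _ => ?_) h3
  rw [MultilinearMap.compLinearMap_apply]
  congr 1
  funext s'
  by_cases hs : s' = s
  · subst hs
    rw [update_self, update_self, Gk.dg_apply]
    funext j
    rcases j with b | j
    · rw [Pi.single_eq_of_ne (by simp)]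
      rfl
    · by_cases hj : j = i
      · subst hj
        rw [Pi.single_eq_same]
        change _ = ((Pi.single j (Pool.Agent.H204R3.SP.SS
          (rform W (X j).X (transcendental W (X j).X)) u v) :
          ∀ j, Module.End W.K (transcendental W (X j).X)) j) (z s' (Sum.inr j))
        rw [Pi.single_eq_same]
      · rw [Pi.single_eq_of_ne (fun h => hj (Sum.inr_injective h))]
        change _ = ((Pi.single i (Pool.Agent.H204R3.SP.SS
          (rform W (X i).X (transcendental W (X i).X)) u v) :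
          ∀ j, Module.End W.K (transcendental W (X j).X)) j) (z s' (Sum.inr j))
        rw [Pi.single_eq_of_ne hj]
        rfl
  · rw [update_of_ne hs, update_of_ne hs]
    funext j
    rcases j with b | j <;> rfl

/-- The projection to the component `j`. -/
noncomputable def comp (X : ι → GVar W Γ) (Y : β → GVar W Γ) (j : β ⊕ ι) :
    (∀ j : β ⊕ ι, transcendental W (Sum.elim Y X j).X) →ₗ[W.K]
      (∀ j : β ⊕ ι, transcendental W (Sum.elim Y X j).X) :=
  (LinearMap.single W.K (fun j : β ⊕ ι => transcendental W (Sum.elim Y X j).X) j) ∘ₗ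
    LinearMap.proj j

theorem comp_apply (j : β ⊕ ι) (x : ∀ j : β ⊕ ι, transcendental W (Sum.elim Y X j).X) :
    comp X Y j x = Pi.single j (x j) := rfl

theorem sum_comp (x : ∀ j : β ⊕ ι, transcendental W (Sum.elim Y X j).X) :
    ∑ j, comp X Y j x = x := by
  simp_rw [comp_apply]
  exact Finset.univ_sum_single x

/-- The character of a component. -/
def chc (χ : Γ →* W.Kˣ) (Y : β → GVar W Γ) {S : Type} [Fintype S] (c : S → β ⊕ ι) : Γ →* W.Kˣ :=
  ∏ s, chs (ι := ι) χ Y (c s)

theorem comp_tw (h : Rel χ X Y Z) (g : Γ) (j : β ⊕ ι)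
    (x : ∀ j : β ⊕ ι, transcendental W (Sum.elim Y X j).X) :
    comp X Y j (twAct h g x) = (chs (ι := ι) χ Y j g : W.K) •
      (fun j' => rhoT (h.galS j') g (comp X Y j x j')) := by
  funext j'
  rw [comp_apply, Pi.smul_apply]
  by_cases hj : j' = j
  · subst hj
    rw [Pi.single_eq_same, comp_apply, Pi.single_eq_same]
    rfl
  · rw [Pi.single_eq_of_ne hj, comp_apply, Pi.single_eq_of_ne hj, map_zero, smul_zero]

/-- **The base.** -/
theorem Rel.base [IsAlgClosed W.K] (h : Rel χ X Y Z) (i : ι) :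
    KT h.galS Z.X Z.act (Sum.inr i) := by
  intro S _ _ lam hlam Δ hΔ f hf u v z
  have hdec : ∀ x : S → ∀ j : β ⊕ ι, transcendental W (Sum.elim Y X j).X,
      f x = ∑ c : S → β ⊕ ι, f.compLinearMap (fun s => comp X Y (c s)) x := by
    intro x
    have h1 : f (fun s => ∑ j, comp X Y j (x s)) = ∑ c : S → β ⊕ ι,
        f (fun s => comp X Y (c s) (x s)) := f.map_sum _
    simp_rw [sum_comp] at h1
    rw [h1]
    rfl
  have key : ∀ c : S → β ⊕ ι, ∑ s, (f.compLinearMap (fun s => comp X Y (c s)))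
      (update z s (Pi.single (Sum.inr i) (Pool.Agent.H204R3.SP.SS
        (rform W (X i).X (transcendental W (X i).X)) u v (z s (Sum.inr i))))) = 0 := by
    intro c
    refine h.base_tw i (lam := lam * chc χ Y c) ?_ hΔ _ ?_ u v z
    · intro g hg
      have h1 : chc χ Y c g = 1 := by
        rw [chc, MonoidHom.finsetProd_apply]
        refine Finset.prod_eq_one fun s _ => ?_
        rcases c s with b | i
        · change (χ ^ tws Y b) g = 1
          rw [MonoidHom.pow_apply, hg, one_pow]
        · rfl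
      rw [MonoidHom.mul_apply, hlam g hg, h1, mul_one]
    · intro g hg x
      rw [MultilinearMap.compLinearMap_apply, MultilinearMap.compLinearMap_apply]
      simp_rw [comp_tw h g]
      rw [f.map_smul_univ, hf g hg, MonoidHom.mul_apply, Units.val_mul, chc,
        MonoidHom.finsetProd_apply, Units.coe_prod, smul_smul, mul_comm]
  rw [Finset.sum_congr rfl fun s _ => hdec _, Finset.sum_comm]
  exact Finset.sum_eq_zero fun c _ => key c

end Run7.h756.CR
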