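import Mathlib
import Pool.Agent.Run7.h756.CR.Base

/-!
# Simultaneous degenerations relative to other degenerating varieties: the conjectures
-/

open CategoryTheory AlgebraicGeometry Finset Function

set_option linter.unusedSectionVars false
set_option linter.unusedVariables false

namespace Run7.h756.CR

universe u

open Pool.Agent.V11219
open Pool.Agent.TH125.Gal Pool.Agent.TH118.SG Pool.Agent.V11219.IsoF Pool.Agent.V11219.Loc
  Pool.Agent.V11219.Quad Pool.Agent.V11219.Sst Pool.Agent.V11219.Bst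

open Pool.Agent.H914 Pool.Agent.H914.VarClass Pool.Agent.H914.VarClass.Obj
  Pool.Agent.H914.WeilCohomology Pool.Agent.H281R3.HT Pool.Agent.W552 Pool.Agent.H447

variable {k : Type u} [Field k] {𝒱 : VarClass k} {ops : CycleOps 𝒱}
  {W : WeilCohomology.{u, 0} ops} {Γ : Type} [Group Γ] {χ : Γ →* W.Kˣ} {G : Set (GVar W Γ)}
  {ι β : Type} {X : ι → GVar W Γ} {D : ∀ i, (X i).X.Cycles} {Y : β → GVar W Γ} {Z : GVar W Γ}

theorem RelSystem.galoisClass [Fintype β] (h : RelSystem χ G X D Y Z) : GaloisClass χ G where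
  galois := h.galois
  prod := fun A hA B hB => by
    obtain ⟨υ, hυ, hG⟩ := h.prod A hA B hB
    exact ⟨_, hG, IsProdVar.mk υ hυ.1 hυ.2⟩

theorem RelSystem.rel [Fintype β] (h : RelSystem χ G X D Y Z) : Rel χ X Y Z where
  good := fun i => ⟨(h.middle i).1, homEqNum_of_pol (h.polarization i), (h.middle i).2⟩
  good' := fun b => ⟨(h.middle_aux b).1, h.homEqNum_aux b, (h.middle_aux b).2⟩
  galois := fun i => h.galois _ (h.mem i)
  galois' := fun b => h.galois _ (h.mem_aux b)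
  irreducible := h.irreducible
  distinct := h.distinct
  small := h.small
  larger := h.larger

variable [Fintype ι] [DecidableEq ι] [Fintype β] [DecidableEq β]

/-- The products of `Z` with powers of the varieties `Y b`. -/
theorem RelSystem.aux [IsAlgClosed W.K] (h : RelSystem χ G X D Y Z)
    (D' : ∀ b, (Y b).X.Cycles) (E : Z.X.Cycles) (L' : List (β × ℕ)) :
    ∃ υ : Γ →* (W.H (tower' ops (fun b => ⟨(Y b).X, D' b⟩) ⟨Z.X, E⟩ L').X ≃ₐ[W.K]
        W.H (tower' ops (fun b => ⟨(Y b).X, D' b⟩) ⟨Z.X, E⟩ L').X),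
      (⟨(tower' ops (fun b => ⟨(Y b).X, D' b⟩) ⟨Z.X, E⟩ L').X, υ⟩ : GVar W Γ) ∈ G ∧
      ∀ i, KT h.rel.galS (tower' ops (fun b => ⟨(Y b).X, D' b⟩) ⟨Z.X, E⟩ L').X υ
        (Sum.inr i) := by
  induction L' with
  | nil => exact ⟨Z.act, h.mem_base, fun i => h.rel.base i⟩
  | cons a L ih =>
    obtain ⟨τ, hτ, hK⟩ := ih
    obtain ⟨υ, hυ, hP⟩ := exists_pow_act h.galoisClass (h.mem_aux a.1) hτ (D' a.1) a.2
    exact ⟨υ, hυ, fun i => KT.step (X := Sum.elim Y X) (j := Sum.inl a.1) h.rel.galS (by simp)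
      (hK i) (h.homEqNum_aux a.1) hP⟩

/-- The action on the towers. -/
theorem RelSystem.tower [IsAlgClosed W.K] (h : RelSystem χ G X D Y Z) {B : Polarized 𝒱}
    (hB : ∃ υ : Γ →* (W.H B.X ≃ₐ[W.K] W.H B.X), (⟨B.X, υ⟩ : GVar W Γ) ∈ G ∧
      ∀ i, KT h.rel.galS B.X υ (Sum.inr i)) (L : List (ι × ℕ)) :
    ∃ υ : Γ →* (W.H (tower' ops (fun i => ⟨(X i).X, D i⟩) B L).X ≃ₐ[W.K]
        W.H (tower' ops (fun i => ⟨(X i).X, D i⟩) B L).X),
      (⟨(tower' ops (fun i => ⟨(X i).X, D i⟩) B L).X, υ⟩ : GVar W Γ) ∈ G ∧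
      ∀ i, i ∉ L.map Prod.fst →
        KT h.rel.galS (tower' ops (fun i => ⟨(X i).X, D i⟩) B L).X υ (Sum.inr i) := by
  induction L with
  | nil =>
    obtain ⟨υ, h1, h2⟩ := hB
    exact ⟨υ, h1, fun i _ => h2 i⟩
  | cons a L ih =>
    obtain ⟨τ, hτ, hK⟩ := ih
    obtain ⟨υ, hυ, hP⟩ := exists_pow_act h.galoisClass (h.mem a.1) hτ (D a.1) a.2
    refine ⟨υ, hυ, fun i hi => ?_⟩
    rw [List.map_cons, List.mem_cons, not_or] at hi
    exact KT.step (X := Sum.elim Y X) (j := Sum.inr a.1) h.rel.galS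
      (fun h => hi.1 (Sum.inr_injective h)) (hK i hi.2)
      (homEqNum_of_pol (h.polarization a.1)) hP

/-- The conditions for one step. -/
theorem RelSystem.split [IsAlgClosed W.K] (h : RelSystem χ G X D Y Z) (i : ι)
    {V : 𝒱.Obj} {υ : Γ →* (W.H V ≃ₐ[W.K] W.H V)} (hV : (⟨V, υ⟩ : GVar W Γ) ∈ G)
    (hK : KT h.rel.galS V υ (Sum.inr i)) : SplitData (X i) (D i) ⟨V, υ⟩ := by
  have hpol := h.polarization i
  have hmid := (h.middle i).2
  have hDX := homEqNum_of_pol hpol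
  have hfull : FullR (P := ⟨(X i).X, D i⟩) χ (h.rel.gal i) υ :=
    fullR_of (X := Sum.elim Y X) (i := Sum.inr i) h.rel.galS hK (D i) hmid (h.middle i).1
  obtain ⟨g, -, hne⟩ := exists_ne_one
    (small_conv (h.rel.gal i) (Set.Subset.refl _) (h.rel.small i))
  have hone : (1 : W.H (X i).X) ≠ 0 := by
    intro h3
    apply hne
    apply LinearMap.ext
    intro t
    apply Subtype.ext
    have h4 : ∀ t : W.H (X i).X, t = 0 := fun t => by rw [← one_mul t, h3, zero_mul]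
    rw [h4 (rhoT (h.rel.gal i) g t : transcendental W (X i).X), h4 ((1 : Module.End W.K _) t :
      transcendental W (X i).X)]
  exact ⟨hpol, hmid, hone, fun s m c hc =>
    tgt_of_fullR h.galoisClass (h.mem i) hV hmid hDX (h.middle i).1 hfull s m c hc⟩

section

variable {B : Polarized 𝒱}

/-- **The conjecture D.** -/
theorem homEqNum_rel [IsAlgClosed W.K] (h : RelSystem χ G X D Y Z)
    (hB : ∃ υ : Γ →* (W.H B.X ≃ₐ[W.K] W.H B.X), (⟨B.X, υ⟩ : GVar W Γ) ∈ G ∧
      ∀ i, KT h.rel.galS B.X υ (Sum.inr i)) (L : List (ι × ℕ)) (hL : (L.map Prod.fst).Nodup) :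
    HomEqNum W (tower' ops (fun i => ⟨(X i).X, D i⟩) B L).X ↔ HomEqNum W B.X := by
  induction L with
  | nil => exact Iff.rfl
  | cons a L ih =>
    rw [List.map_cons, List.nodup_cons] at hL
    obtain ⟨υ, hυ, hK⟩ := h.tower hB L
    have hN := h.split a.1 hυ (hK a.1 hL.1)
    rw [← ih hL.2]
    constructor
    · intro h1
      obtain ⟨x, hx⟩ := exists_tr hN.one_ne
      have h2 : W.tr (nest ops a.2 fun _ => (⟨(X a.1).X, D a.1⟩ : Polarized 𝒱)).X
          (mono (prj ops a.2 fun _ => (⟨(X a.1).X, D a.1⟩ : Polarized 𝒱)) fun _ => x) ≠ 0 := by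
        rw [tr_mono]
        exact pow_ne_zero _ hx
      exact homEqNum_factor h2 h1
    · intro h1
      exact hN.homEqNum_prod a.2 h1

/-- **The conjecture of Hodge type.** -/
theorem hodge_rel [IsAlgClosed W.K] (h : RelSystem χ G X D Y Z)
    (hB : ∃ υ : Γ →* (W.H B.X ≃ₐ[W.K] W.H B.X), (⟨B.X, υ⟩ : GVar W Γ) ∈ G ∧
      ∀ i, KT h.rel.galS B.X υ (Sum.inr i))
    (hE : IsPolarization W B.X B.D) (L : List (ι × ℕ)) (hL : (L.map Prod.fst).Nodup) :
    HodgeType W (tower' ops (fun i => ⟨(X i).X, D i⟩) B L).X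
        (tower' ops (fun i => ⟨(X i).X, D i⟩) B L).D ∧
      HomEqNum W (tower' ops (fun i => ⟨(X i).X, D i⟩) B L).X := by
  have key : ∃ g, Fp W (tower' ops (fun i => ⟨(X i).X, D i⟩) B L).X
      (tower' ops (fun i => ⟨(X i).X, D i⟩) B L).D g := by
    induction L with
    | nil =>
      obtain ⟨g, hg, _⟩ := exists_Fp hE.div hE.hard hE.lefschetz hE.hodge
      exact ⟨g, hg⟩
    | cons a L ih =>
      rw [List.map_cons, List.nodup_cons] at hL
      obtain ⟨υ, hυ, hK⟩ := h.tower hB L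
      exact (h.split a.1 hυ (hK a.1 hL.1)).fp_prod a.2 (ih hL.2)
  obtain ⟨g, F⟩ := key
  exact F.hodge

/-- **The conjecture A for towers and all divisors.** -/
theorem lefAll_rel [IsAlgClosed W.K] (h : RelSystem χ G X D Y Z)
    (hB : ∃ υ : Γ →* (W.H B.X ≃ₐ[W.K] W.H B.X), (⟨B.X, υ⟩ : GVar W Γ) ∈ G ∧
      ∀ i, KT h.rel.galS B.X υ (Sum.inr i)) (L : List (ι × ℕ)) (hL : (L.map Prod.fst).Nodup) :
    LefAll W (tower' ops (fun i => ⟨(X i).X, D i⟩) B L).X ↔ LefAll W B.X := by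
  induction L with
  | nil => exact Iff.rfl
  | cons a L ih =>
    rw [List.map_cons, List.nodup_cons] at hL
    obtain ⟨υ, hυ, hK⟩ := h.tower hB L
    have hN := h.split a.1 hυ (hK a.1 hL.1)
    rw [← ih hL.2]
    exact hN.lefAll_iff a.2

end

end Run7.h756.CR
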